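import Mathlib

/-!
# Project TY, file Law: finitely supported probability laws

A law on a type `α` is an expectation functional `E : (α → ℝ) → ℝ` which is a finite convex
combination of evaluations.  Everything (map, bind, conditioning, convolution) is expressed through `E`.
-/

namespace MP14ee70.TY

open Finset

/-- A finitely supported probability law on `α`, given by its expectation functional. -/
structure Law (α : Type*) where
  /-- expectation -/
  E : (α → ℝ) → ℝ
  fin' : ∃ (ι : Type) (_ : Fintype ι) (a : ι → α) (w : ι → ℝ),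
    (∀ i, 0 ≤ w i) ∧ ∑ i, w i = 1 ∧ ∀ f, E f = ∑ i, w i * f (a i)

namespace Law

variable {α β γ : Type*}

@[ext] theorem ext {p q : Law α} (h : ∀ f, p.E f = q.E f) : p = q := by
  cases p; cases q
  congr
  funext f
  exact h f

theorem E_add (p : Law α) (f g : α → ℝ) : p.E (fun x => f x + g x) = p.E f + p.E g := by
  obtain ⟨ι, _, a, w, -, -, h⟩ := p.fin'
  rw [h, h, h, ← Finset.sum_add_distrib]
  exact Finset.sum_congr rfl fun i _ => by ring

theorem E_sub (p : Law α) (f g : α → ℝ) : p.E (fun x => f x - g x) = p.E f - p.E g := by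
  obtain ⟨ι, _, a, w, -, -, h⟩ := p.fin'
  rw [h, h, h, ← Finset.sum_sub_distrib]
  exact Finset.sum_congr rfl fun i _ => by ring

theorem E_neg (p : Law α) (f : α → ℝ) : p.E (fun x => - f x) = - p.E f := by
  obtain ⟨ι, _, a, w, -, -, h⟩ := p.fin'
  rw [h, h, ← Finset.sum_neg_distrib]
  exact Finset.sum_congr rfl fun i _ => by ring

theorem E_const_mul (p : Law α) (c : ℝ) (f : α → ℝ) : p.E (fun x => c * f x) = c * p.E f := by
  obtain ⟨ι, _, a, w, -, -, h⟩ := p.fin'
  rw [h, h, Finset.mul_sum]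
  exact Finset.sum_congr rfl fun i _ => by ring

theorem E_mul_const (p : Law α) (c : ℝ) (f : α → ℝ) : p.E (fun x => f x * c) = p.E f * c := by
  obtain ⟨ι, _, a, w, -, -, h⟩ := p.fin'
  rw [h, h, Finset.sum_mul]
  exact Finset.sum_congr rfl fun i _ => by ring

theorem E_const (p : Law α) (c : ℝ) : p.E (fun _ => c) = c := by
  obtain ⟨ι, _, a, w, -, h1, h⟩ := p.fin'
  rw [h, ← Finset.sum_mul, h1, one_mul]

theorem E_sum {κ : Type*} (p : Law α) (s : Finset κ) (f : κ → α → ℝ) :
    p.E (fun x => ∑ k ∈ s, f k x) = ∑ k ∈ s, p.E (f k) := by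
  classical
  induction s using Finset.induction_on with
  | empty => simp only [Finset.sum_empty]; exact E_const p 0
  | insert a s ha ih =>
    simp only [Finset.sum_insert ha]
    rw [E_add, ih]

theorem E_nonneg (p : Law α) {f : α → ℝ} (hf : ∀ x, 0 ≤ f x) : 0 ≤ p.E f := by
  obtain ⟨ι, _, a, w, hw, -, h⟩ := p.fin'
  rw [h]
  exact Finset.sum_nonneg fun i _ => mul_nonneg (hw i) (hf _)

theorem E_mono (p : Law α) {f g : α → ℝ} (hfg : ∀ x, f x ≤ g x) : p.E f ≤ p.E g := by
  obtain ⟨ι, _, a, w, hw, -, h⟩ := p.fin'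
  rw [h, h]
  exact Finset.sum_le_sum fun i _ => mul_le_mul_of_nonneg_left (hfg _) (hw i)

theorem E_le_of_le (p : Law α) {f : α → ℝ} {c : ℝ} (hf : ∀ x, f x ≤ c) : p.E f ≤ c :=
  (p.E_mono hf).trans_eq (p.E_const c)

theorem le_E_of_le (p : Law α) {f : α → ℝ} {c : ℝ} (hf : ∀ x, c ≤ f x) : c ≤ p.E f :=
  (p.E_const c).symm.trans_le (p.E_mono hf)

theorem abs_E_le (p : Law α) (f : α → ℝ) : |p.E f| ≤ p.E (fun x => |f x|) := by
  rw [abs_le]
  constructor
  · rw [← E_neg]; exact p.E_mono fun x => neg_abs_le _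
  · exact p.E_mono fun x => le_abs_self _

/-- Fubini for finitely supported laws. -/
theorem E_comm (p : Law α) (q : Law β) (F : α → β → ℝ) :
    p.E (fun x => q.E (fun y => F x y)) = q.E (fun y => p.E (fun x => F x y)) := by
  obtain ⟨ι, _, a, w, -, -, h⟩ := p.fin'
  obtain ⟨κ, _, b, v, -, -, h'⟩ := q.fin'
  simp only [h, h']
  simp only [Finset.mul_sum]
  rw [Finset.sum_comm]
  exact Finset.sum_congr rfl fun i _ => Finset.sum_congr rfl fun j _ => by ring

/-- Cauchy-Schwarz. -/
theorem E_mul_sq_le (p : Law α) (f g : α → ℝ) :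
    (p.E (fun x => f x * g x)) ^ 2 ≤ p.E (fun x => f x ^ 2) * p.E (fun x => g x ^ 2) := by
  obtain ⟨ι, _, a, w, hw, -, h⟩ := p.fin'
  simp only [h]
  have key := Finset.sum_mul_sq_le_sq_mul_sq Finset.univ (fun i => Real.sqrt (w i) * f (a i))
    (fun i => Real.sqrt (w i) * g (a i))
  have e1 : ∀ i, Real.sqrt (w i) * f (a i) * (Real.sqrt (w i) * g (a i))
      = w i * (f (a i) * g (a i)) := fun i => by
    have := Real.mul_self_sqrt (hw i)
    calc _ = (Real.sqrt (w i) * Real.sqrt (w i)) * (f (a i) * g (a i)) := by ring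
      _ = _ := by rw [this]
  have e2 : ∀ i, (Real.sqrt (w i) * f (a i)) ^ 2 = w i * f (a i) ^ 2 := fun i => by
    rw [mul_pow, Real.sq_sqrt (hw i)]
  have e3 : ∀ i, (Real.sqrt (w i) * g (a i)) ^ 2 = w i * g (a i) ^ 2 := fun i => by
    rw [mul_pow, Real.sq_sqrt (hw i)]
  simp only [e1, e2, e3] at key
  exact key

/-- Jensen for `Real.log` (concave), with the possibly vanishing integrand handled by the
hypothesis that it is positive where the law lives. -/
theorem E_log_le (p : Law α) (f : α → ℝ) (hf : ∀ x, 0 < f x) :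
    p.E (fun x => Real.log (f x)) ≤ Real.log (p.E f) := by
  obtain ⟨ι, _, a, w, hw, hw1, h⟩ := p.fin'
  simp only [h]
  have := strictConcaveOn_log_Ioi.concaveOn.le_map_sum (t := Finset.univ) (w := w)
    (p := fun i => f (a i)) (fun i _ => hw i) hw1 (fun i _ => hf _)
  simpa [smul_eq_mul] using this

/-! ### constructions -/

/-- Point mass. -/
noncomputable def dirac (a : α) : Law α where
  E f := f a
  fin' := ⟨Unit, inferInstance, fun _ => a, fun _ => 1, fun _ => zero_le_one, by simp, by simp⟩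

@[simp] theorem dirac_E (a : α) (f : α → ℝ) : (dirac a).E f = f a := rfl

/-- Push-forward. -/
noncomputable def map (g : α → β) (p : Law α) : Law β where
  E f := p.E (fun x => f (g x))
  fin' := by
    obtain ⟨ι, i1, a, w, hw, hw1, h⟩ := p.fin'
    exact ⟨ι, i1, fun i => g (a i), w, hw, hw1, fun f => h _⟩

@[simp] theorem map_E (g : α → β) (p : Law α) (f : β → ℝ) :
    (map g p).E f = p.E (fun x => f (g x)) := rfl

/-- Composition with a kernel. -/
noncomputable def bind (p : Law α) (κ : α → Law β) : Law β where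
  E f := p.E (fun x => (κ x).E f)
  fin' := by
    obtain ⟨ι, i1, a, w, hw, hw1, h⟩ := p.fin'
    choose J J1 b v hv hv1 hE using fun i => (κ (a i)).fin'
    refine ⟨Σ i, J i, inferInstance, fun x => b x.1 x.2, fun x => w x.1 * v x.1 x.2,
      fun x => mul_nonneg (hw _) (hv _ _), ?_, ?_⟩
    · rw [Fintype.sum_sigma]
      simp only [← Finset.mul_sum, hv1, mul_one, hw1]
    · intro f
      rw [h, Fintype.sum_sigma]
      refine Finset.sum_congr rfl fun i _ => ?_
      rw [hE, Finset.mul_sum]
      exact Finset.sum_congr rfl fun j _ => by ring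

@[simp] theorem bind_E (p : Law α) (κ : α → Law β) (f : β → ℝ) :
    (bind p κ).E f = p.E (fun x => (κ x).E f) := rfl

/-- The law with weights proportional to `w` on the finite set `s`. -/
noncomputable def wt (s : Finset α) (w : α → ℝ) (hw : ∀ x ∈ s, 0 ≤ w x)
    (hs : 0 < ∑ x ∈ s, w x) : Law α where
  E f := (∑ x ∈ s, w x * f x) / ∑ x ∈ s, w x
  fin' := by
    classical
    have e := s.equivFin
    refine ⟨Fin s.card, inferInstance, fun i => (e.symm i : s),
      fun i => w (e.symm i : s) / ∑ x ∈ s, w x, ?_, ?_, ?_⟩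
    · intro i
      exact div_nonneg (hw _ (e.symm i).2) hs.le
    · rw [← Finset.sum_div]
      rw [show (∑ i, w (e.symm i : s)) = ∑ x ∈ s, w x from ?_]
      · exact div_self hs.ne'
      · rw [Equiv.sum_comp e.symm (fun x : s => w x)]
        exact Finset.sum_coe_sort s w
    · intro f
      have : ∀ i, w (e.symm i : s) / (∑ x ∈ s, w x) * f (e.symm i : s)
          = (w (e.symm i : s) * f (e.symm i : s)) / ∑ x ∈ s, w x := fun i => by ring
      simp only [this]
      rw [← Finset.sum_div, Equiv.sum_comp e.symm (fun x : s => w x * f x)]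
      rw [Finset.sum_coe_sort s (fun x => w x * f x)]

theorem wt_E (s : Finset α) (w : α → ℝ) (hw : ∀ x ∈ s, 0 ≤ w x)
    (hs : 0 < ∑ x ∈ s, w x) (f : α → ℝ) :
    (wt s w hw hs).E f = (∑ x ∈ s, w x * f x) / ∑ x ∈ s, w x := rfl

/-- The uniform law on a nonempty finite set. -/
noncomputable def unif (s : Finset α) (hs : s.Nonempty) : Law α :=
  wt s (fun _ => 1) (fun _ _ => zero_le_one) (by
    simp only [Finset.sum_const, nsmul_eq_mul, mul_one]
    exact_mod_cast hs.card_pos)

theorem unif_E (s : Finset α) (hs : s.Nonempty) (f : α → ℝ) :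
    (unif s hs).E f = (∑ x ∈ s, f x) / s.card := by
  simp [unif, wt_E]

/-- The law `p` reweighted by a nonnegative function `v` with positive expectation; in particular
conditioning on an event `S`, with `v` the indicator of `S`. -/
noncomputable def tilt (p : Law α) (v : α → ℝ) (hv : ∀ x, 0 ≤ v x) (hpos : 0 < p.E v) : Law α where
  E f := p.E (fun x => v x * f x) / p.E v
  fin' := by
    obtain ⟨ι, i1, a, w, hw, hw1, h⟩ := p.fin'
    refine ⟨ι, i1, a, fun i => w i * v (a i) / p.E v,
      fun i => div_nonneg (mul_nonneg (hw i) (hv _)) hpos.le, ?_, ?_⟩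
    · rw [← Finset.sum_div, ← h]
      exact div_self hpos.ne'
    · intro f
      rw [h, Finset.sum_div]
      exact Finset.sum_congr rfl fun i _ => by ring

theorem tilt_E (p : Law α) (v : α → ℝ) (hv : ∀ x, 0 ≤ v x) (hpos : 0 < p.E v) (f : α → ℝ) :
    (tilt p v hv hpos).E f = p.E (fun x => v x * f x) / p.E v := rfl

/-- Convex combination `(1 - t) p + t q`. -/
noncomputable def mix (t : ℝ) (h0 : 0 ≤ t) (h1 : t ≤ 1) (p q : Law α) : Law α where
  E f := (1 - t) * p.E f + t * q.E f
  fin' := by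
    obtain ⟨ι, i1, a, w, hw, hw1, h⟩ := p.fin'
    obtain ⟨κ, i2, b, v, hv, hv1, h'⟩ := q.fin'
    refine ⟨ι ⊕ κ, inferInstance, Sum.elim a b,
      Sum.elim (fun i => (1 - t) * w i) (fun j => t * v j), ?_, ?_, ?_⟩
    · rintro (i | j)
      · exact mul_nonneg (sub_nonneg.2 h1) (hw i)
      · exact mul_nonneg h0 (hv j)
    · simp only [Fintype.sum_sum_type, Sum.elim_inl, Sum.elim_inr, ← Finset.mul_sum, hw1, hv1]
      ring
    · intro f
      simp only [Fintype.sum_sum_type, Sum.elim_inl, Sum.elim_inr, h, h', Finset.mul_sum, mul_assoc]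

theorem mix_E (t : ℝ) (h0 : 0 ≤ t) (h1 : t ≤ 1) (p q : Law α) (f : α → ℝ) :
    (mix t h0 h1 p q).E f = (1 - t) * p.E f + t * q.E f := rfl

/-! ### convolution -/

section Monoid

variable {S : Type*} [CommMonoid S]

/-- Laws on a commutative monoid form a commutative monoid under convolution
(law of the product of independent elements). -/
noncomputable instance : CommMonoid (Law S) where
  mul p q := bind p (fun x => map (fun y => x * y) q)
  one := dirac 1
  mul_assoc p q r := by
    ext f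
    change p.E (fun x => q.E (fun y => r.E (fun z => f (x * y * z))))
      = p.E (fun x => q.E (fun y => r.E (fun z => f (x * (y * z)))))
    simp only [mul_assoc]
  one_mul p := by
    ext f
    change p.E (fun y => f (1 * y)) = p.E f
    simp only [one_mul]
  mul_one p := by
    ext f
    change p.E (fun y => f (y * 1)) = p.E f
    simp only [mul_one]
  mul_comm p q := by
    ext f
    change p.E (fun x => q.E (fun y => f (x * y))) = q.E (fun x => p.E (fun y => f (x * y)))
    rw [E_comm]
    simp only [mul_comm]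

theorem mul_E (p q : Law S) (f : S → ℝ) :
    (p * q).E f = p.E (fun x => q.E (fun y => f (x * y))) := rfl

theorem one_E (f : S → ℝ) : (1 : Law S).E f = f 1 := rfl

theorem map_mul {T : Type*} [CommMonoid T] (φ : S → T) (hφ : ∀ x y, φ (x * y) = φ x * φ y)
    (p q : Law S) : map φ (p * q) = map φ p * map φ q := by
  ext f
  simp only [map_E, mul_E, hφ]

theorem map_one {T : Type*} [CommMonoid T] (φ : S → T) (h1 : φ 1 = 1) :
    map φ (1 : Law S) = 1 := by
  ext f
  simp only [map_E, one_E, h1]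

theorem map_pow {T : Type*} [CommMonoid T] (φ : S → T) (h1 : φ 1 = 1)
    (hφ : ∀ x y, φ (x * y) = φ x * φ y) (p : Law S) (n : ℕ) : map φ (p ^ n) = map φ p ^ n := by
  induction n with
  | zero => rw [pow_zero, pow_zero, map_one φ h1]
  | succ n ih => rw [pow_succ, pow_succ, map_mul φ hφ, ih]

end Monoid

/-! ### domination -/

/-- `p ≤ K q` as measures. -/
def Dom (K : ℝ) (p q : Law α) : Prop := ∀ F : α → ℝ, (∀ x, 0 ≤ F x) → p.E F ≤ K * q.E F

theorem Dom.refl (p : Law α) : Dom 1 p p := fun F _ => by rw [one_mul]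

theorem Dom.one_le {K : ℝ} {p q : Law α} (h : Dom K p q) : 1 ≤ K := by
  have := h (fun _ => 1) (fun _ => zero_le_one)
  rwa [E_const, E_const, mul_one] at this

theorem Dom.trans {K K' : ℝ} {p q r : Law α} (h : Dom K p q) (h' : Dom K' q r) :
    Dom (K * K') p r := fun F hF =>
  (h F hF).trans (by
    rw [mul_assoc]
    exact mul_le_mul_of_nonneg_left (h' F hF) (zero_le_one.trans h.one_le))

theorem Dom.mono {K K' : ℝ} {p q : Law α} (h : Dom K p q) (hK : K ≤ K') : Dom K' p q :=
  fun F hF => (h F hF).trans (mul_le_mul_of_nonneg_right hK (q.E_nonneg hF))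

theorem Dom.map {K : ℝ} {p q : Law α} (h : Dom K p q) (g : α → β) :
    Dom K (Law.map g p) (Law.map g q) := fun F hF => h (fun x => F (g x)) fun _ => hF _

theorem Dom.mul {S : Type*} [CommMonoid S] {K K' : ℝ} {p q p' q' : Law S} (h : Dom K p q)
    (h' : Dom K' p' q') : Dom (K * K') (p * p') (q * q') := by
  intro F hF
  rw [mul_E, mul_E]
  have hK : 0 ≤ K := zero_le_one.trans h.one_le
  calc p.E (fun x => p'.E (fun y => F (x * y)))
      ≤ K * q.E (fun x => p'.E (fun y => F (x * y))) :=
        h _ fun x => p'.E_nonneg fun y => hF _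
    _ ≤ K * q.E (fun x => K' * q'.E (fun y => F (x * y))) := by
        refine mul_le_mul_of_nonneg_left (q.E_mono fun x => h' _ fun y => hF _) hK
    _ = K * K' * q.E (fun x => q'.E (fun y => F (x * y))) := by
        rw [E_const_mul, mul_assoc]

theorem Dom.pow {S : Type*} [CommMonoid S] {K : ℝ} {p q : Law S} (h : Dom K p q) (n : ℕ) :
    Dom (K ^ n) (p ^ n) (q ^ n) := by
  induction n with
  | zero => simpa using Dom.refl (1 : Law S)
  | succ n ih => rw [pow_succ, pow_succ, pow_succ]; exact ih.mul h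

theorem Dom.bind {K : ℝ} {p q : Law α} (h : Dom K p q) (κ : α → Law β) :
    Dom K (Law.bind p κ) (Law.bind q κ) := fun F hF =>
  h (fun x => (κ x).E F) fun x => (κ x).E_nonneg hF

/-- a kernel all of whose values are dominated by a fixed law, composed with a product -/
theorem Dom.bind_right {K : ℝ} {p : Law α} {κ κ' : α → Law β} (hK : ∀ x, Dom K (κ x) (κ' x)) :
    Dom K (Law.bind p κ) (Law.bind p κ') := fun F hF => by
  rw [bind_E, bind_E, ← E_const_mul]
  exact p.E_mono fun x => hK x F hF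

theorem dom_tilt (p : Law α) (v : α → ℝ) (hv : ∀ x, 0 ≤ v x) (hpos : 0 < p.E v)
    (hv1 : ∀ x, v x ≤ 1) : Dom (1 / p.E v) (tilt p v hv hpos) p := fun F hF => by
  rw [tilt_E, one_div, div_eq_inv_mul]
  refine mul_le_mul_of_nonneg_left (p.E_mono fun x => ?_) (inv_nonneg.2 hpos.le)
  exact mul_le_of_le_one_left (hF x) (hv1 x)

/-! ### events -/

open Classical in
/-- Probability of an event. -/
noncomputable def P (p : Law α) (A : α → Prop) : ℝ := p.E (fun x => if A x then 1 else 0)

theorem P_nonneg (p : Law α) (A : α → Prop) : 0 ≤ p.P A :=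
  p.E_nonneg fun x => by split_ifs <;> norm_num

theorem P_le_one (p : Law α) (A : α → Prop) : p.P A ≤ 1 :=
  p.E_le_of_le fun x => by split_ifs <;> norm_num

theorem P_mono (p : Law α) {A B : α → Prop} (h : ∀ x, A x → B x) : p.P A ≤ p.P B :=
  p.E_mono fun x => by
    by_cases hA : A x
    · simp [hA, h x hA]
    · simp only [hA, if_false]; split_ifs <;> norm_num

theorem P_compl (p : Law α) (A : α → Prop) : p.P (fun x => ¬ A x) = 1 - p.P A := by
  unfold P
  rw [← E_const p 1, ← E_sub]
  congr 1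
  funext x
  by_cases hA : A x <;> simp [hA, E_const]

theorem P_or_le (p : Law α) (A B : α → Prop) : p.P (fun x => A x ∨ B x) ≤ p.P A + p.P B := by
  unfold P
  rw [← E_add]
  refine p.E_mono fun x => ?_
  by_cases hA : A x <;> by_cases hB : B x <;> simp [hA, hB]

theorem P_exists_le {κ : Type*} (p : Law α) (s : Finset κ) (A : κ → α → Prop) :
    p.P (fun x => ∃ k ∈ s, A k x) ≤ ∑ k ∈ s, p.P (A k) := by
  classical
  induction s using Finset.induction_on with
  | empty =>
    simp only [Finset.notMem_empty, false_and, exists_false, Finset.sum_empty]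
    unfold P
    simp [E_const]
  | insert a s ha ih =>
    rw [Finset.sum_insert ha]
    refine le_trans (p.P_mono (B := fun x => A a x ∨ ∃ k ∈ s, A k x) fun x => ?_)
      ((p.P_or_le _ _).trans (add_le_add_right ih _))
    rintro ⟨k, hk, hA⟩
    rcases Finset.mem_insert.1 hk with rfl | hk
    · exact Or.inl hA
    · exact Or.inr ⟨k, hk, hA⟩

theorem Dom.P {K : ℝ} {p q : Law α} (h : Dom K p q) (A : α → Prop) : p.P A ≤ K * q.P A :=
  h _ fun x => by split_ifs <;> norm_num

theorem map_P (g : α → β) (p : Law α) (A : β → Prop) :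
    (map g p).P A = p.P (fun x => A (g x)) := rfl

/-- Markov. -/
theorem markov (p : Law α) (f : α → ℝ) (hf : ∀ x, 0 ≤ f x) {c : ℝ} (hc : 0 < c) :
    p.P (fun x => c < f x) ≤ p.E f / c := by
  rw [le_div_iff₀ hc]
  unfold P
  rw [← E_mul_const]
  refine p.E_mono fun x => ?_
  by_cases h : c < f x
  · simp only [h, if_true, one_mul]; exact h.le
  · simp only [h, if_false, zero_mul]; exact hf x

/-- `p` lives on the set of `x` with `A x`. -/
def Supp (p : Law α) (A : α → Prop) : Prop := p.P (fun x => ¬ A x) = 0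

theorem supp_iff (p : Law α) (A : α → Prop) : p.Supp A ↔ p.P A = 1 := by
  unfold Supp
  rw [P_compl]
  constructor <;> intro h <;> linarith

theorem Supp.mono {p : Law α} {A B : α → Prop} (h : p.Supp A) (hAB : ∀ x, A x → B x) :
    p.Supp B := le_antisymm
  ((p.P_mono fun x hx hA => hx (hAB x hA)).trans_eq h) (p.P_nonneg _)

theorem Supp.dom {K : ℝ} {p q : Law α} {A : α → Prop} (hq : q.Supp A) (h : Dom K p q) :
    p.Supp A := le_antisymm ((h.P _).trans_eq (by
      have : q.P (fun x => ¬ A x) = 0 := hq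
      rw [this, mul_zero])) (p.P_nonneg _)

/-- On the support one may change the integrand. -/
theorem Supp.E_congr {p : Law α} {A : α → Prop} (h : p.Supp A) {f g : α → ℝ}
    (hfg : ∀ x, A x → f x = g x) : p.E f = p.E g := by
  obtain ⟨ι, _, a, w, hw, hw1, hE⟩ := p.fin'
  have h0 : p.P (fun x => ¬ A x) = 0 := h
  unfold P at h0
  rw [hE] at h0
  rw [Finset.sum_eq_zero_iff_of_nonneg (fun i _ => mul_nonneg (hw i) (by
    split_ifs <;> norm_num))] at h0
  rw [hE, hE]
  refine Finset.sum_congr rfl fun i hi => ?_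
  by_cases hA : A (a i)
  · rw [hfg _ hA]
  · have := h0 i hi
    simp only [hA, not_false_eq_true, if_true, mul_one] at this
    rw [this, zero_mul, zero_mul]

theorem Supp.E_mono {p : Law α} {A : α → Prop} (h : p.Supp A) {f g : α → ℝ}
    (hfg : ∀ x, A x → f x ≤ g x) : p.E f ≤ p.E g := by
  classical
  have h1 : p.E f = p.E (fun x => if A x then f x else g x) :=
    h.E_congr fun x hx => by simp [hx]
  rw [h1]
  refine p.E_mono fun x => ?_
  by_cases hA : A x
  · simp [hA, hfg x hA]
  · simp [hA]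

theorem supp_mul {S : Type*} [CommMonoid S] {p q : Law S} {A B C : S → Prop} (hp : p.Supp A)
    (hq : q.Supp B) (hC : ∀ x y, A x → B y → C (x * y)) : (p * q).Supp C := by
  rw [supp_iff]
  unfold P
  rw [mul_E]
  rw [hp.E_congr (g := fun _ => 1) fun x hx => ?_, E_const]
  rw [hq.E_congr (g := fun _ => 1) fun y hy => ?_, E_const]
  simp [hC x y hx hy]

theorem supp_wt (s : Finset α) (w : α → ℝ) (hw : ∀ x ∈ s, 0 ≤ w x)
    (hs : 0 < ∑ x ∈ s, w x) : (wt s w hw hs).Supp (· ∈ s) := by
  unfold Supp P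
  rw [wt_E]
  rw [Finset.sum_eq_zero, zero_div]
  intro x hx
  simp [hx]

/-! ### point masses of a law on a finite (or any) type -/

open Classical in
/-- Probability of a point. -/
noncomputable def pm (p : Law α) (a : α) : ℝ := p.E (fun x => if x = a then 1 else 0)

theorem pm_nonneg (p : Law α) (a : α) : 0 ≤ p.pm a :=
  p.E_nonneg fun x => by split_ifs <;> norm_num

theorem pm_le_one (p : Law α) (a : α) : p.pm a ≤ 1 :=
  p.E_le_of_le fun x => by split_ifs <;> norm_num

theorem E_eq_sum [Fintype α] (p : Law α) (f : α → ℝ) : p.E f = ∑ a, p.pm a * f a := by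
  classical
  have h : f = fun x => ∑ a, (if x = a then 1 else 0) * f a := by
    funext x
    simp [ite_mul]
  conv_lhs => rw [h]
  rw [E_sum]
  refine Finset.sum_congr rfl fun a _ => ?_
  rw [E_mul_const]
  rfl

theorem sum_pm [Fintype α] (p : Law α) : ∑ a, p.pm a = 1 := by
  have := E_eq_sum p (fun _ => 1)
  simpa [E_const] using this.symm

theorem Dom.pm {K : ℝ} {p q : Law α} (h : Dom K p q) (a : α) : p.pm a ≤ K * q.pm a :=
  h _ fun x => by split_ifs <;> norm_num

/-! ### complex expectations -/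

/-- Complex expectation. -/
noncomputable def EC (p : Law α) (f : α → ℂ) : ℂ :=
  ⟨p.E (fun x => (f x).re), p.E (fun x => (f x).im)⟩

theorem EC_eq (p : Law α) {ι : Type} [Fintype ι] {a : ι → α} {w : ι → ℝ}
    (h : ∀ f, p.E f = ∑ i, w i * f (a i)) (f : α → ℂ) : p.EC f = ∑ i, (w i : ℂ) * f (a i) := by
  apply Complex.ext
  · simp [EC, h]
  · simp [EC, h]

theorem EC_add (p : Law α) (f g : α → ℂ) : p.EC (fun x => f x + g x) = p.EC f + p.EC g := by
  apply Complex.ext <;> simp [EC, E_add]

theorem EC_const (p : Law α) (c : ℂ) : p.EC (fun _ => c) = c := by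
  apply Complex.ext <;> simp [EC, E_const]

theorem EC_const_mul (p : Law α) (c : ℂ) (f : α → ℂ) : p.EC (fun x => c * f x) = c * p.EC f := by
  obtain ⟨ι, _, a, w, -, -, h⟩ := p.fin'
  rw [p.EC_eq h, p.EC_eq h, Finset.mul_sum]
  exact Finset.sum_congr rfl fun i _ => by ring

theorem EC_mul_const (p : Law α) (c : ℂ) (f : α → ℂ) : p.EC (fun x => f x * c) = p.EC f * c := by
  obtain ⟨ι, _, a, w, -, -, h⟩ := p.fin'
  rw [p.EC_eq h, p.EC_eq h, Finset.sum_mul]
  exact Finset.sum_congr rfl fun i _ => by ring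

theorem EC_sum {κ : Type*} (p : Law α) (s : Finset κ) (f : κ → α → ℂ) :
    p.EC (fun x => ∑ k ∈ s, f k x) = ∑ k ∈ s, p.EC (f k) := by
  obtain ⟨ι, _, a, w, -, -, h⟩ := p.fin'
  simp only [p.EC_eq h, Finset.mul_sum]
  exact Finset.sum_comm

theorem EC_conj (p : Law α) (f : α → ℂ) :
    p.EC (fun x => (starRingEnd ℂ) (f x)) = (starRingEnd ℂ) (p.EC f) := by
  apply Complex.ext <;> simp [EC, E_neg]

theorem norm_EC_le (p : Law α) (f : α → ℂ) : ‖p.EC f‖ ≤ p.E (fun x => ‖f x‖) := by
  obtain ⟨ι, _, a, w, hw, -, h⟩ := p.fin'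
  rw [p.EC_eq h, h]
  refine (norm_sum_le _ _).trans_eq (Finset.sum_congr rfl fun i _ => ?_)
  rw [norm_mul, Complex.norm_real, Real.norm_of_nonneg (hw i)]

theorem EC_comm (p : Law α) (q : Law β) (F : α → β → ℂ) :
    p.EC (fun x => q.EC (fun y => F x y)) = q.EC (fun y => p.EC (fun x => F x y)) := by
  apply Complex.ext
  · exact E_comm p q _
  · exact E_comm p q _

theorem map_EC (g : α → β) (p : Law α) (f : β → ℂ) :
    (map g p).EC f = p.EC (fun x => f (g x)) := rfl

theorem mul_EC {S : Type*} [CommMonoid S] (p q : Law S) (f : S → ℂ) :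
    (p * q).EC f = p.EC (fun x => q.EC (fun y => f (x * y))) := rfl

/-- Complex expectation of a multiplicative function under a convolution. -/
theorem mul_EC_hom {S : Type*} [CommMonoid S] (p q : Law S) (χ : S → ℂ)
    (hχ : ∀ x y, χ (x * y) = χ x * χ y) : (p * q).EC χ = p.EC χ * q.EC χ := by
  rw [mul_EC]
  simp only [hχ, EC_const_mul, EC_mul_const]

theorem one_EC {S : Type*} [CommMonoid S] (f : S → ℂ) : (1 : Law S).EC f = f 1 := rfl

theorem pow_EC_hom {S : Type*} [CommMonoid S] (p : Law S) (χ : S → ℂ) (h1 : χ 1 = 1)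
    (hχ : ∀ x y, χ (x * y) = χ x * χ y) (n : ℕ) : (p ^ n).EC χ = p.EC χ ^ n := by
  induction n with
  | zero => rw [pow_zero, pow_zero, one_EC, h1]
  | succ n ih => rw [pow_succ, pow_succ, mul_EC_hom _ _ _ hχ, ih]

theorem EC_eq_sum [Fintype α] (p : Law α) (f : α → ℂ) : p.EC f = ∑ a, (p.pm a : ℂ) * f a := by
  apply Complex.ext
  · simp [EC, E_eq_sum]
  · simp [EC, E_eq_sum]

end Law
end MP14ee70.TY
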