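import Mathlib
import Pool.Agent.Lib.MP_14ee70_nt.TY.Law

/-!
# Project TY, file Defs: the common definitions

`ch` is the standard additive character of `ZMod Q`, `nrm a` the distance of `a / Q` to the nearest integer,
`ft` the Fourier transform on `ZMod Q`, `e` the function `exp (2 π i x)`, `ph τ x = x ^ (i τ)`.
-/

namespace MP14ee70.TY

open Finset

noncomputable section

/-- `e x = exp (2 π i x)`. -/
def e (x : ℝ) : ℂ := Complex.exp (((2 * Real.pi * x : ℝ) : ℂ) * Complex.I)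

/-- `ph τ x = x ^ (i τ)` for `x > 0`. -/
def ph (τ x : ℝ) : ℂ := Complex.exp (((τ * Real.log x : ℝ) : ℂ) * Complex.I)

/-- The standard additive character `a ↦ exp (2 π i a / Q)` of `ZMod Q`. -/
def ch {Q : ℕ} [NeZero Q] (a : ZMod Q) : ℂ := ZMod.stdAddChar a

/-- The distance of `a / Q` to the nearest integer, for `a : ZMod Q`. -/
def nrm {Q : ℕ} (a : ZMod Q) : ℝ := |(a.valMinAbs : ℝ)| / Q

/-- Fourier transform on `ZMod Q`. -/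
def ft {Q : ℕ} [NeZero Q] (f : ZMod Q → ℝ) (r : ZMod Q) : ℂ := ∑ x, (f x : ℂ) * ch (r * x)

/-- Convolution on `ZMod Q`. -/
def cnv {Q : ℕ} [NeZero Q] (f g : ZMod Q → ℝ) (x : ZMod Q) : ℝ := ∑ z, f z * g (x - z)

/-! ### Part V -/

namespace V

/-- The number of pairs of elements of `T` with the same value of `f`. -/
def coll {X V : Type*} [DecidableEq V] (T : Finset X) (f : X → V) : ℕ :=
  ((T ×ˢ T).filter fun p => f p.1 = f p.2).card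

/-- The vector of powers `(x, x ^ 2, …, x ^ K)`. -/
def pw (K : ℕ) (x : ℤ) : Fin K → ℤ := fun j => x ^ (j.val + 1)

/-- The power sums of a tuple. -/
def ps (K : ℕ) {s : ℕ} (x : Fin s → ℤ) : Fin K → ℤ := ∑ i, pw K (x i)

/-- The tuples with all entries in `B`. -/
def box (s : ℕ) (B : Finset ℤ) : Finset (Fin s → ℤ) := Fintype.piFinset fun _ => B

/-- Vinogradov's mean value: the number of solutions of the system
`∑ i < s, x i ^ j = ∑ i < s, z i ^ j`, `j = 1, …, K`, with `1 ≤ x i, z i ≤ P`. -/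
def J (s K P : ℕ) : ℕ := coll (box s (Finset.Icc 1 (P : ℤ))) (ps K)

/-- The integers in `[1, P]` congruent to `a` mod `p`. -/
def cls (P p : ℕ) (a : ℤ) : Finset ℤ := (Finset.Icc 1 (P : ℤ)).filter fun x => (p : ℤ) ∣ x - a

/-- The tuples in `[1, P] ^ K` with entries pairwise different mod `p`. -/
def well (K P p : ℕ) : Finset (Fin K → ℤ) :=
  (box K (Finset.Icc 1 (P : ℤ))).filter fun x => ∀ i j, i ≠ j → ¬ (p : ℤ) ∣ x i - x j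

/-- `K (K + 1) / 2 * (1 - (1 - 1 / K) ^ t)`. -/
def Del (K t : ℕ) : ℝ := (K : ℝ) * (K + 1) / 2 * (1 - (1 - 1 / (K : ℝ)) ^ t)

end V

/-! ### Part W -/

/-- `∑_{|v| ≤ U} |∑_{|u| ≤ U} e (a u v)|` with `U = s M ^ j`. -/
def Sj (s M j : ℕ) (a : ℝ) : ℝ :=
  ∑ v ∈ Finset.Icc (-((s * M ^ j : ℕ) : ℤ)) ((s * M ^ j : ℕ) : ℤ),
    ‖∑ u ∈ Finset.Icc (-((s * M ^ j : ℕ) : ℤ)) ((s * M ^ j : ℕ) : ℤ), e (a * u * v)‖

/-- `|∑_{x, z ≤ M} e (∑_{j ≤ K} α_j x^j z^j)|`. -/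
def Tsum (K M : ℕ) (α : Fin K → ℝ) : ℝ :=
  ‖∑ x ∈ Finset.Icc 1 M, ∑ z ∈ Finset.Icc 1 M,
    e (∑ j : Fin K, α j * ((x : ℝ) * z) ^ (j.val + 1))‖

/-! ### Part N, M, F -/

/-- The integers in `(X / 2, X]`. -/
def UU (X : ℝ) : Finset ℕ := Finset.Ioc ⌊X / 2⌋₊ ⌊X⌋₊

/-- The integers in `(y / 2, y]` with at most `K0` prime factors (with multiplicity). -/
def MM (y : ℝ) (K0 : ℕ) : Finset ℕ :=
  (UU y).filter fun m => ArithmeticFunction.cardFactors m ≤ K0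

/-- `E_{m ∈ M} m ^ (i τ)`. -/
def mu (y : ℝ) (K0 : ℕ) (τ : ℝ) : ℂ := (∑ m ∈ MM y K0, ph τ m) / (MM y K0).card

/-- A finite set of reals in `[-T, T]` with differences at least `1`. -/
def Sep (T : ℝ) (A : Finset ℝ) : Prop :=
  (∀ a ∈ A, |a| ≤ T) ∧ ∀ a ∈ A, ∀ b ∈ A, a ≠ b → 1 ≤ |a - b|

/-- `K_0 = ⌈60 log L⌉`. -/
def K0 (L : ℝ) : ℕ := ⌈60 * Real.log L⌉₊

/-- `D = (k + 1) ^ K_0`. -/
def DD (k : ℕ) (L : ℝ) : ℝ := ((k : ℝ) + 1) ^ K0 L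

/-- The regime of the parameters.  `A` measures how large everything is. -/
structure Reg (A : ℝ) (N k : ℕ) (L y η : ℝ) : Prop where
  hA1 : 1 ≤ A
  hL : L = Real.log N
  hA : A ≤ Real.log L
  hk_lo : L ^ (9 / 20 : ℝ) ≤ k
  hk_hi : (k : ℝ) ^ 2 ≤ L
  hy : y = Real.exp (L / (k + 5 / 8))
  hη_lo : A * Real.log L ^ 7 ≤ k * η
  hη_hi : η * (k : ℝ) ^ 2 ≤ Real.log y

/-- `h = ⌈4 L⌉`. -/
def hh (L : ℝ) : ℕ := ⌈4 * L⌉₊

/-- `H = N ^ 2`. -/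
def HH (N : ℕ) : ℕ := N ^ 2

/-- `Q = h H`. -/
def QQ (N : ℕ) (L : ℝ) : ℕ := hh L * HH N

/-- `R_n = ⌈1000 / η⌉`, the length of the noise. -/
def Rn (η : ℝ) : ℕ := ⌈1000 / η⌉₊

/-- The step set `A = M × {0, …, R_n - 1}`. -/
def AA (L y η : ℝ) : Finset (ℕ × ℕ) := MM y (K0 L) ×ˢ Finset.range (Rn η)

/-- `val (m, ρ) = ⌊H log m⌋ + ρ` in `ZMod Q`. -/
def val (N : ℕ) (Q : ℕ) (a : ℕ × ℕ) : ZMod Q :=
  ((⌊(HH N : ℝ) * Real.log a.1⌋ + (a.2 : ℤ) : ℤ) : ZMod Q)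

/-- The frequency `τ_r = 2 π r / h`. -/
def tau (N : ℕ) (L : ℝ) (r : ZMod (QQ N L)) : ℝ := 2 * Real.pi * (r.valMinAbs : ℝ) / hh L

end

end MP14ee70.TY
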