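import Mathlib
import Pool.Agent.Lib.MP_14ee70_nt.TY.Defs

/-!
# Project TY, file Defs2: more definitions (parts F3, E, B, C)
-/

namespace MP14ee70.TY

open Finset

noncomputable section

/-- `ν(r) = E_{a ∈ A} e (r val(a) / Q)`. -/
def nu (N : ℕ) (L y η : ℝ) [NeZero (QQ N L)] (r : ZMod (QQ N L)) : ℂ :=
  (∑ a ∈ AA L y η, ch (r * val N (QQ N L) a)) / (AA L y η).card

/-- The low frequencies. -/
def LowS (N : ℕ) (L η : ℝ) [NeZero (QQ N L)] : Finset (ZMod (QQ N L)) :=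
  Finset.univ.filter fun r => |tau N L r| < 18 * Real.sqrt η

/-- The bad frequencies. -/
def BadS (N : ℕ) (L y η v : ℝ) [NeZero (QQ N L)] : Finset (ZMod (QQ N L)) :=
  Finset.univ.filter fun r => Real.exp (-v) ≤ ‖nu N L y η r‖

/-- Bohr sets: `{x : |x| ≤ θ H, ‖σ_i x / Q‖ ≤ ρ for all i}`. -/
def Bohr {Q : ℕ} [NeZero Q] (H : ℝ) {q : ℕ} (σ : Fin q → ZMod Q) (ρ θ : ℝ) : Finset (ZMod Q) :=
  Finset.univ.filter fun x => |(x.valMinAbs : ℝ)| ≤ θ * H ∧ ∀ i, nrm (σ i * x) ≤ ρ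

/-- The law of `pos a - pos a'` for independent `a, a'`. -/
def blaw {Q : ℕ} {S : Type*} (pos : S → ZMod Q) (mA : Law S) : Law (ZMod Q) :=
  Law.bind mA fun a => Law.map (fun a' => pos a - pos a') mA

/-- The law of `pos U - pos V` for a pair `(U, V)`. -/
def dlaw {Q : ℕ} {S : Type*} (pos : S → ZMod Q) (π : Law (S × S)) : Law (ZMod Q) :=
  Law.map (fun z => pos z.1 - pos z.2) π

/-- Shannon entropy of a law on `ZMod Q`. -/
def ent {Q : ℕ} [NeZero Q] (p : Law (ZMod Q)) : ℝ := ∑ x, Real.negMulLog (p.pm x)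

/-- The class of the laws `Z ≤ K B^r gam^a mA^r`. -/
def LL {S : Type*} [CommMonoid S] (gam mA : Law S) (B : ℝ) (a r : ℕ) (K : ℝ) : Set (Law S) :=
  {Z | Law.Dom (K * B ^ r) Z (gam ^ a * mA ^ r)}

/-- `sup ent (pos Z)` over `Z ∈ LL(1, r, 1)`. -/
def Mx {Q : ℕ} [NeZero Q] {S : Type*} [CommMonoid S] (pos : S → ZMod Q) (gam mA : Law S) (B : ℝ)
    (r : ℕ) : ℝ := sSup ((fun Z => ent (Law.map pos Z)) '' LL gam mA B 1 r 1)

end

end MP14ee70.TY
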