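import Mathlib
import Pool.Agent.Lib.MP_14ee70_nt.TY.Defs

/-!
# Project TY, file Four: Fourier analysis on `ZMod Q`

`ch a = ZMod.stdAddChar a` (`ZMod.stdAddChar_coe : stdAddChar (j : ZMod N) = exp (2 π i j / N)`), orthogonality:
`AddChar.sum_mulShift`, `ZMod.isPrimitive_stdAddChar`.
`nrm a = |a.valMinAbs| / Q`.
-/

namespace MP14ee70.TY

open Finset

variable {Q : ℕ} [NeZero Q]

theorem ch_zero : ch (0 : ZMod Q) = 1 := AddChar.map_zero_eq_one _

theorem ch_add (a b : ZMod Q) : ch (a + b) = ch a * ch b := AddChar.map_add_eq_mul _ a b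

theorem ch_neg (a : ZMod Q) : ch (-a) = (starRingEnd ℂ) (ch a) := AddChar.map_neg_eq_conj _ a

theorem norm_ch (a : ZMod Q) : ‖ch a‖ = 1 := AddChar.norm_apply _ a

/-- `ch j = e (j / Q)` for an integer `j`. -/
theorem ch_intCast (j : ℤ) : ch (j : ZMod Q) = e ((j : ℝ) / Q) := by
  unfold ch e
  rw [ZMod.stdAddChar_coe]
  congr 1
  push_cast
  ring

private theorem four_Qpos : (0 : ℝ) < Q := by
  exact_mod_cast Nat.pos_of_ne_zero (NeZero.ne Q)

private theorem nrm_eq_natAbs (a : ZMod Q) : nrm a = (a.valMinAbs.natAbs : ℝ) / Q := by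
  unfold nrm
  rw [Nat.cast_natAbs, Int.cast_abs]

theorem nrm_nonneg (a : ZMod Q) : 0 ≤ nrm a := by
  unfold nrm
  positivity

theorem nrm_le_half (a : ZMod Q) : nrm a ≤ 1 / 2 := by
  rw [nrm_eq_natAbs, div_le_iff₀ four_Qpos]
  have h1 := ZMod.natAbs_valMinAbs_le a
  have h2 : a.valMinAbs.natAbs * 2 ≤ Q := by omega
  have h3 : (a.valMinAbs.natAbs : ℝ) * 2 ≤ Q := by exact_mod_cast h2
  linarith

theorem nrm_zero : nrm (0 : ZMod Q) = 0 := by
  rw [nrm_eq_natAbs, ZMod.valMinAbs_zero]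
  simp

theorem nrm_neg (a : ZMod Q) : nrm (-a) = nrm a := by
  rw [nrm_eq_natAbs, nrm_eq_natAbs, ZMod.natAbs_valMinAbs_neg]

theorem nrm_add_le (a b : ZMod Q) : nrm (a + b) ≤ nrm a + nrm b := by
  rw [nrm_eq_natAbs, nrm_eq_natAbs, nrm_eq_natAbs, ← add_div]
  have h1 : (a + b).valMinAbs.natAbs ≤ a.valMinAbs.natAbs + b.valMinAbs.natAbs :=
    (ZMod.natAbs_valMinAbs_add_le a b).trans (Int.natAbs_add_le _ _)
  have h2 : ((a + b).valMinAbs.natAbs : ℝ) ≤ a.valMinAbs.natAbs + b.valMinAbs.natAbs := by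
    exact_mod_cast h1
  exact div_le_div_of_nonneg_right h2 four_Qpos.le

theorem nrm_intCast_le (j : ℤ) : nrm (j : ZMod Q) ≤ |(j : ℝ)| / Q := by
  rw [nrm_eq_natAbs]
  have h1 : (j : ZMod Q).valMinAbs.natAbs ≤ j.natAbs :=
    ZMod.natAbs_min_of_le_div_two Q _ _ (by rw [ZMod.coe_valMinAbs]) (ZMod.natAbs_valMinAbs_le _)
  have h2 : ((j : ZMod Q).valMinAbs.natAbs : ℝ) ≤ |(j : ℝ)| := by
    rw [← Int.cast_abs, ← Nat.cast_natAbs]
    exact_mod_cast h1
  exact div_le_div_of_nonneg_right h2 four_Qpos.le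

theorem nrm_intCast_mul_le (j : ℤ) (a : ZMod Q) : nrm ((j : ZMod Q) * a) ≤ |(j : ℝ)| * nrm a := by
  have h1 : (j : ZMod Q) * a = ((j * a.valMinAbs : ℤ) : ZMod Q) := by
    rw [Int.cast_mul, ZMod.coe_valMinAbs]
  rw [h1]
  refine (nrm_intCast_le _).trans_eq ?_
  unfold nrm
  rw [Int.cast_mul, abs_mul, mul_div_assoc]

theorem nrm_sum_le {ι : Type*} (s : Finset ι) (f : ι → ZMod Q) :
    nrm (∑ i ∈ s, f i) ≤ ∑ i ∈ s, nrm (f i) := by
  classical
  induction s using Finset.induction_on with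
  | empty => rw [Finset.sum_empty, Finset.sum_empty, nrm_zero]
  | insert a s ha ih =>
    rw [Finset.sum_insert ha, Finset.sum_insert ha]
    exact (nrm_add_le _ _).trans (add_le_add_right ih _)

private theorem ch_eq_exp (a : ZMod Q) :
    ch a = Complex.exp (Complex.I * ((2 * Real.pi * ((a.valMinAbs : ℝ) / Q) : ℝ) : ℂ)) := by
  have h1 := ch_intCast (Q := Q) a.valMinAbs
  rw [ZMod.coe_valMinAbs] at h1
  rw [h1]
  unfold e
  rw [mul_comm]

/-- `|ch a - 1| ≤ 2 π ‖a / Q‖`. -/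
theorem norm_ch_sub_one_le (a : ZMod Q) : ‖ch a - 1‖ ≤ 2 * Real.pi * nrm a := by
  rw [ch_eq_exp]
  refine Real.norm_exp_I_mul_ofReal_sub_one_le.trans_eq ?_
  rw [Real.norm_eq_abs, abs_mul, abs_div, abs_of_pos four_Qpos, abs_of_pos Real.two_pi_pos]
  rfl

/-- `|ch a - 1| = 2 sin (π ‖a/Q‖) ≥ 4 ‖a / Q‖`. -/
theorem norm_ch_sub_one_ge (a : ZMod Q) : 4 * nrm a ≤ ‖ch a - 1‖ := by
  have hπ := Real.pi_pos
  rw [ch_eq_exp, Complex.norm_exp_I_mul_ofReal_sub_one, norm_mul, Real.norm_of_nonneg zero_le_two,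
    Real.norm_eq_abs]
  have h1 : 2 * Real.pi * ((a.valMinAbs : ℝ) / Q) / 2 = Real.pi * ((a.valMinAbs : ℝ) / Q) := by
    ring
  have h2 : |Real.sin (Real.pi * ((a.valMinAbs : ℝ) / Q))| = Real.sin (Real.pi * nrm a) := by
    have h3 : nrm a = |(a.valMinAbs : ℝ) / Q| := by
      unfold nrm
      rw [abs_div, abs_of_pos four_Qpos]
    have h4 : 0 ≤ Real.sin (Real.pi * nrm a) :=
      Real.sin_nonneg_of_nonneg_of_le_pi (mul_nonneg hπ.le (nrm_nonneg a)) (by
        have := nrm_le_half a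
        nlinarith)
    rcases abs_cases ((a.valMinAbs : ℝ) / Q) with ⟨h5, _⟩ | ⟨h5, _⟩
    · rw [h3, h5]
      rw [h3, h5] at h4
      exact abs_of_nonneg h4
    · rw [h3, h5, mul_neg, Real.sin_neg]
      rw [h3, h5, mul_neg, Real.sin_neg] at h4
      exact abs_of_nonpos (by linarith)
  rw [h1, h2]
  have h3 := Real.mul_le_sin (mul_nonneg hπ.le (nrm_nonneg a)) (by
    have := nrm_le_half a
    nlinarith)
  have h4 : 2 / Real.pi * (Real.pi * nrm a) = 2 * nrm a := by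
    field_simp
  rw [h4] at h3
  linarith

theorem sum_ch (a : ZMod Q) : ∑ r : ZMod Q, ch (r * a) = if a = 0 then (Q : ℂ) else 0 := by
  have h1 := AddChar.sum_mulShift a (ZMod.isPrimitive_stdAddChar Q)
  rw [ZMod.card] at h1
  unfold ch
  rw [h1]
  split_ifs
  · rfl
  · exact Nat.cast_zero

theorem plancherel (f g : ZMod Q → ℝ) :
    ∑ r, ft f r * (starRingEnd ℂ) (ft g r) = (Q : ℂ) * ((∑ x, f x * g x : ℝ) : ℂ) := by
  have h1 : ∀ r : ZMod Q, ft f r * (starRingEnd ℂ) (ft g r) =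
      ∑ x, ∑ z, ((f x : ℂ) * g z) * ch (r * (x - z)) := by
    intro r
    unfold ft
    rw [map_sum, Finset.sum_mul_sum]
    refine Finset.sum_congr rfl fun x _ => Finset.sum_congr rfl fun z _ => ?_
    rw [map_mul, Complex.conj_ofReal, ← ch_neg, mul_sub, sub_eq_add_neg, ch_add]
    ring
  rw [Finset.sum_congr rfl fun r _ => h1 r, Finset.sum_comm]
  have h2 : ∀ x : ZMod Q, ∑ r, ∑ z, ((f x : ℂ) * g z) * ch (r * (x - z)) =
      (Q : ℂ) * ((f x : ℂ) * g x) := by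
    intro x
    rw [Finset.sum_comm]
    have h3 : ∀ z : ZMod Q, ∑ r, ((f x : ℂ) * g z) * ch (r * (x - z)) =
        if z = x then (Q : ℂ) * ((f x : ℂ) * g x) else 0 := by
      intro z
      rw [← Finset.mul_sum, sum_ch]
      by_cases hz : z = x
      · subst hz
        rw [if_pos (sub_self _), if_pos rfl]
        ring
      · rw [if_neg fun h => hz (sub_eq_zero.1 h).symm, if_neg hz, mul_zero]
    rw [Finset.sum_congr rfl fun z _ => h3 z, Finset.sum_ite_eq', if_pos (Finset.mem_univ _)]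
  rw [Finset.sum_congr rfl fun x _ => h2 x, ← Finset.mul_sum]
  push_cast
  rfl

theorem parseval (f : ZMod Q → ℝ) : ∑ r, ‖ft f r‖ ^ 2 = Q * ∑ x, f x ^ 2 := by
  have h1 := plancherel f f
  have h2 : ∀ r : ZMod Q, ft f r * (starRingEnd ℂ) (ft f r) = ((‖ft f r‖ ^ 2 : ℝ) : ℂ) := by
    intro r
    rw [Complex.mul_conj, Complex.normSq_eq_norm_sq]
  rw [Finset.sum_congr rfl fun r _ => h2 r, ← Complex.ofReal_sum] at h1
  have h3 : (Q : ℂ) * ((∑ x, f x * f x : ℝ) : ℂ) = (((Q : ℝ) * ∑ x, f x * f x : ℝ) : ℂ) := by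
    push_cast
    rfl
  rw [h3] at h1
  rw [Complex.ofReal_injective h1]
  congr 1
  exact Finset.sum_congr rfl fun x _ => (pow_two _).symm

theorem ft_cnv (f g : ZMod Q → ℝ) (r : ZMod Q) : ft (cnv f g) r = ft f r * ft g r := by
  unfold ft cnv
  rw [Finset.sum_mul_sum]
  have h1 : ∀ x : ZMod Q, ((∑ z, f z * g (x - z) : ℝ) : ℂ) * ch (r * x) =
      ∑ z, ((f z : ℂ) * ch (r * z)) * ((g (x - z) : ℂ) * ch (r * (x - z))) := by
    intro x
    push_cast
    rw [Finset.sum_mul]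
    refine Finset.sum_congr rfl fun z _ => ?_
    have h2 : ch (r * x) = ch (r * z) * ch (r * (x - z)) := by
      rw [← ch_add]
      congr 1
      ring
    rw [h2]
    ring
  rw [Finset.sum_congr rfl fun x _ => h1 x, Finset.sum_comm]
  refine Finset.sum_congr rfl fun z _ => ?_
  exact Fintype.sum_equiv (Equiv.subRight z) _
    (fun y => ((f z : ℂ) * ch (r * z)) * ((g y : ℂ) * ch (r * y))) fun x => rfl

theorem ft_shift (f : ZMod Q → ℝ) (b r : ZMod Q) :
    ft (fun x => f (x + b)) r = ch (-(r * b)) * ft f r := by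
  unfold ft
  rw [Finset.mul_sum]
  refine Fintype.sum_equiv (Equiv.addRight b) _
    (fun y => ch (-(r * b)) * ((f y : ℂ) * ch (r * y))) fun x => ?_
  have h2 : ch (r * x) = ch (-(r * b)) * ch (r * (x + b)) := by
    rw [← ch_add]
    congr 1
    ring
  change (f (x + b) : ℂ) * ch (r * x) = ch (-(r * b)) * ((f (x + b) : ℂ) * ch (r * (x + b)))
  rw [h2]
  ring

/-- the Fourier transform of the point masses of a law is the expectation of the character -/
theorem ft_pm (p : Law (ZMod Q)) (r : ZMod Q) : ft p.pm r = p.EC fun x => ch (r * x) := by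
  rw [Law.EC_eq_sum]
  rfl

theorem norm_ft_pm_le_one (p : Law (ZMod Q)) (r : ZMod Q) : ‖ft p.pm r‖ ≤ 1 := by
  rw [ft_pm]
  refine (p.norm_EC_le _).trans (p.E_le_of_le fun x => ?_)
  rw [norm_ch]

/-! ### windows -/

theorem norm_win_le (W : ℕ) (r : ZMod Q) : ‖∑ x ∈ Finset.range W, ch (r * (x : ZMod Q))‖ ≤ W := by
  refine (norm_sum_le _ _).trans_eq ?_
  simp only [norm_ch]
  rw [Finset.sum_const, Finset.card_range, nsmul_eq_mul, mul_one]

private theorem ch_mul_nat (r : ZMod Q) (n : ℕ) : ch (r * (n : ZMod Q)) = ch r ^ n := by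
  induction n with
  | zero => rw [Nat.cast_zero, mul_zero, ch_zero, pow_zero]
  | succ n ih => rw [Nat.cast_succ, mul_add, mul_one, ch_add, ih, pow_succ]

private theorem nrm_pos_of_ne {r : ZMod Q} (hr : r ≠ 0) : 0 < nrm r := by
  unfold nrm
  have h1 : r.valMinAbs ≠ 0 := fun h => hr ((ZMod.valMinAbs_eq_zero r).1 h)
  exact div_pos (abs_pos.2 (by exact_mod_cast h1)) four_Qpos

/-- geometric sum: `≤ 2 / |ch r - 1| ≤ 1 / (2 ‖r/Q‖)` -/
theorem norm_win_le_inv (W : ℕ) (r : ZMod Q) (hr : r ≠ 0) :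
    ‖∑ x ∈ Finset.range W, ch (r * (x : ZMod Q))‖ ≤ 1 / (2 * nrm r) := by
  have hn := nrm_pos_of_ne hr
  have h1 := norm_ch_sub_one_ge r
  have h2 : 0 < ‖ch r - 1‖ := by linarith
  rw [Finset.sum_congr rfl fun x _ => ch_mul_nat r x]
  have h3 : (∑ x ∈ Finset.range W, ch r ^ x) * (ch r - 1) = ch r ^ W - 1 := geom_sum_mul _ _
  have h4 : ‖∑ x ∈ Finset.range W, ch r ^ x‖ * ‖ch r - 1‖ ≤ 2 := by
    rw [← norm_mul, h3]
    refine (norm_sub_le _ _).trans ?_
    rw [norm_pow, norm_ch, one_pow, norm_one]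
    norm_num
  rw [le_div_iff₀ (by positivity)]
  nlinarith [norm_nonneg (∑ x ∈ Finset.range W, ch r ^ x)]

/-- all terms have real part `≥ cos (π/4) ≥ 1/2` -/
theorem norm_win_ge (W : ℕ) (r : ZMod Q) (hr : nrm r * W ≤ 1 / 8) :
    (W : ℝ) / 2 ≤ ‖∑ x ∈ Finset.range W, ch (r * (x : ZMod Q))‖ := by
  have h1 : ∀ x ∈ Finset.range W, (1 : ℝ) / 2 ≤ (ch (r * (x : ZMod Q))).re := by
    intro x hx
    have hxW : (x : ℝ) ≤ W := by exact_mod_cast (Finset.mem_range.1 hx).le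
    have h2 : nrm (r * (x : ZMod Q)) ≤ 1 / 8 := by
      have h3 := nrm_intCast_mul_le (Q := Q) (x : ℤ) r
      rw [Int.cast_natCast, mul_comm] at h3
      refine h3.trans ?_
      rw [Int.cast_natCast, abs_of_nonneg (Nat.cast_nonneg x)]
      nlinarith [nrm_nonneg r]
    have h3 : ‖ch (r * (x : ZMod Q)) - 1‖ ≤ 2 * Real.pi * (1 / 8) :=
      (norm_ch_sub_one_le _).trans (mul_le_mul_of_nonneg_left h2 Real.two_pi_pos.le)
    -- the real part is `1 - ‖ch - 1‖^2 / 2`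
    have h4 : ‖ch (r * (x : ZMod Q)) - 1‖ ^ 2 = 2 - 2 * (ch (r * (x : ZMod Q))).re := by
      have h5 := norm_ch (r * (x : ZMod Q))
      have h6 : ‖ch (r * (x : ZMod Q))‖ ^ 2 = 1 := by rw [h5, one_pow]
      rw [← Complex.normSq_eq_norm_sq, Complex.normSq_apply] at h6
      rw [← Complex.normSq_eq_norm_sq, Complex.normSq_apply, Complex.sub_re, Complex.sub_im,
        Complex.one_re, Complex.one_im]
      linarith
    have h5 : ‖ch (r * (x : ZMod Q)) - 1‖ ^ 2 ≤ 1 := by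
      have h6 : 2 * Real.pi * (1 / 8) ≤ 1 := by linarith [Real.pi_le_four]
      have h7 := norm_nonneg (ch (r * (x : ZMod Q)) - 1)
      nlinarith
    linarith
  have h2 : (W : ℝ) / 2 ≤ (∑ x ∈ Finset.range W, ch (r * (x : ZMod Q))).re := by
    rw [Complex.re_sum]
    have h3 := Finset.card_nsmul_le_sum _ _ _ h1
    rw [Finset.card_range, nsmul_eq_mul] at h3
    linarith
  exact h2.trans (Complex.re_le_norm _)

theorem norm_win_sub_one_le (W : ℕ) (hW : 1 ≤ W) (r : ZMod Q) :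
    ‖(∑ x ∈ Finset.range W, ch (r * (x : ZMod Q))) / W - 1‖ ≤ 2 * Real.pi * (nrm r * W) := by
  have hW0 : (0 : ℝ) < W := by exact_mod_cast hW
  have hWc : (W : ℂ) ≠ 0 := by
    have : W ≠ 0 := by omega
    exact_mod_cast this
  have h1 : (∑ x ∈ Finset.range W, ch (r * (x : ZMod Q))) / W - 1 =
      (∑ x ∈ Finset.range W, (ch (r * (x : ZMod Q)) - 1)) / W := by
    rw [Finset.sum_sub_distrib, Finset.sum_const, Finset.card_range, nsmul_eq_mul, mul_one,
      sub_div, div_self hWc]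
  rw [h1, norm_div, Complex.norm_natCast, div_le_iff₀ hW0]
  refine (norm_sum_le _ _).trans ?_
  have h2 : ∀ x ∈ Finset.range W, ‖ch (r * (x : ZMod Q)) - 1‖ ≤ 2 * Real.pi * (nrm r * W) := by
    intro x hx
    have hxW : (x : ℝ) ≤ W := by exact_mod_cast (Finset.mem_range.1 hx).le
    refine (norm_ch_sub_one_le _).trans (mul_le_mul_of_nonneg_left ?_ Real.two_pi_pos.le)
    have h3 := nrm_intCast_mul_le (Q := Q) (x : ℤ) r
    rw [Int.cast_natCast, mul_comm] at h3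
    refine h3.trans ?_
    rw [Int.cast_natCast, abs_of_nonneg (Nat.cast_nonneg x), mul_comm]
    exact mul_le_mul_of_nonneg_left hxW (nrm_nonneg r)
  refine (Finset.sum_le_card_nsmul _ _ _ h2).trans_eq ?_
  rw [Finset.card_range, nsmul_eq_mul, mul_comm]

end MP14ee70.TY
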