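import Mathlib
import Pool.Agent.Lib.MP_14ee70_nt.TY.Defs2
import Pool.Agent.Lib.MP_14ee70_nt.TY.F.Reg

/-!
# Project TY, file Defs3: the concrete monoids, the random product (transfer, part P)
-/

namespace MP14ee70.TY

open Finset

noncomputable section

/-- Pairs (position in `ZMod Q`, integer); the group operation on positions, multiplication on integers. -/
abbrev GN (Q : ℕ) := Multiplicative (ZMod Q) × ℕ

/-- Triples (correction, position, integer). -/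
abbrev SSm (Q : ℕ) := Multiplicative (ZMod Q) × Multiplicative (ZMod Q) × ℕ

/-- The position of an element of `GN Q`. -/
def xG {Q : ℕ} (z : GN Q) : ZMod Q := Multiplicative.toAdd z.1

/-- The full position of an element of `SSm Q`. -/
def posS {Q : ℕ} (z : SSm Q) : ZMod Q := Multiplicative.toAdd z.1 + Multiplicative.toAdd z.2.1

/-- The law of a step in `GN Q`: `(v a, a.1)` for `a` uniform in `A`. -/
def stp {Q : ℕ} (A : Finset (ℕ × ℕ)) (hA : A.Nonempty) (v : ℕ × ℕ → ZMod Q) : Law (GN Q) :=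
  Law.map (fun a => (Multiplicative.ofAdd (v a), a.1)) (Law.unif A hA)

/-- The law of a step in `SSm Q`. -/
def mAS {Q : ℕ} (A : Finset (ℕ × ℕ)) (hA : A.Nonempty) (v : ℕ × ℕ → ZMod Q) : Law (SSm Q) :=
  Law.map (fun a => (1, Multiplicative.ofAdd (v a), a.1)) (Law.unif A hA)

/-- The law of a correction: `(u, 0, 1)` with `u` uniform in `C2`. -/
def gamS {Q : ℕ} (C2 : Finset (ZMod Q)) (hC2 : C2.Nonempty) : Law (SSm Q) :=
  Law.map (fun u => (Multiplicative.ofAdd u, 1, 1)) (Law.unif C2 hC2)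

/-- The integers in `(y^(1/4), y]` with at most `K0 L` prime factors. -/
def M0 (L y : ℝ) : Finset ℕ :=
  (Finset.Ioc ⌊y ^ (1 / 4 : ℝ)⌋₊ ⌊y⌋₊).filter fun m => ArithmeticFunction.cardFactors m ≤ K0 L

/-- `Z_0 = ∑_{m ∈ M_0} 1/m`. -/
def Z0 (L y : ℝ) : ℝ := ∑ m ∈ M0 L y, 1 / (m : ℝ)

/-- The law of the first factor `m_0`. -/
def fac0 (L y : ℝ) (hZ : 0 < Z0 L y) : Law ℕ :=
  Law.wt (M0 L y) (fun m => 1 / (m : ℝ)) (fun _ _ => div_nonneg zero_le_one (Nat.cast_nonneg _)) hZ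

/-- The law of `(⌊H log m_0⌋, m_0)`. -/
def fac0G (N : ℕ) (L y : ℝ) (hZ : 0 < Z0 L y) : Law (GN (QQ N L)) :=
  Law.map (fun m : ℕ => ((Multiplicative.ofAdd
    (((⌊(HH N : ℝ) * Real.log (m : ℝ)⌋ : ℤ) : ZMod (QQ N L))), m) : GN (QQ N L))) (fac0 L y hZ)

/-- The law of the random product `(T, n_T)`: the first factor, `l` independent steps, and `Lam`. -/
def TLaw (N : ℕ) (L y η : ℝ) (hZ : 0 < Z0 L y) (hA : (AA L y η).Nonempty)
    (Lam : Law (GN (QQ N L))) (l : ℕ) : Law (GN (QQ N L)) :=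
  fac0G N L y hZ * stp (AA L y η) hA (val N (QQ N L)) ^ l * Lam

/-- `f_W(u) = P(T ∈ u + {0, …, W-1}) / W`. -/
def fW {Q : ℕ} (p : Law (GN Q)) (W : ℕ) (u : ZMod Q) : ℝ :=
  p.P (fun z => ∃ x < W, xG z = u + (x : ZMod Q)) / W

/-- `(1/W) ∑_{x < W} ch (r x)`. -/
def wn {Q : ℕ} [NeZero Q] (W : ℕ) (r : ZMod Q) : ℂ :=
  (∑ x ∈ Finset.range W, ch (r * (x : ZMod Q))) / W

/-- The characteristic function of the position. -/
def chf {Q : ℕ} [NeZero Q] (p : Law (GN Q)) (r : ZMod Q) : ℂ := p.EC fun z => ch (r * xG z)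

/-- `t = ⌊y^8⌋`. -/
def tt (y : ℝ) : ℕ := ⌊y ^ 8⌋₊

/-- the short window -/
def Wd (N : ℕ) (y : ℝ) : ℕ := tt y * N / 8

/-- the long window -/
def Wb (N : ℕ) (y : ℝ) : ℕ := ⌊y ^ (-(1 / 20) : ℝ) * HH N⌋₊

/-- the bound for the rounding error -/
def ww (k : ℕ) (η : ℝ) : ℕ := 2 * k * Rn η

/-- `v_0 = k (log L)^3 / 6` -/
def v0 (k : ℕ) (L : ℝ) : ℝ := k * Real.log L ^ 3 / 6

/-- `v_1 = k (log L)^3 / 100` -/
def v1 (k : ℕ) (L : ℝ) : ℝ := k * Real.log L ^ 3 / 100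

/-- `v_2 = 4 CT (log L)^3 / (k sqrt η)` -/
def v2 (CT : ℝ) (k : ℕ) (L η : ℝ) : ℝ := 4 * CT * Real.log L ^ 3 / (k * Real.sqrt η)

/-- The large values property with the constants `CT, C'` (theorem `F2a`). -/
def F2aProp (CT C' : ℝ) : Prop := ∀ (N k : ℕ) (L y η : ℝ), RegF C' N k L y η →
    ∀ TT : Finset ℝ, Sep ((N : ℝ) ^ 3) TT → (∀ τ ∈ TT, Real.exp (-2) ≤ ‖mu y (K0 L) τ‖) →
    (TT.card : ℝ) ≤ Real.exp (CT * Real.log L ^ 3 / Real.sqrt η)

end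

end MP14ee70.TY
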